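import Pool.Agent.Helper13.MRF.Final
import Pool.Agent.Helper33.MRC.X13

/-!
# Sign changes of the Liouville function along a progression, at every scale

For `Q ≥ 1`, every residue `r` and every large `N`, a positive proportion of the `n ≤ N` with
`n ≡ r (mod Q)` has `λ(n) ≠ λ(n + Q)`. Consequence of the theorem of Matomaki and Radziwill in
progressions (project MR).
-/

set_option autoImplicit false

namespace NE

open Finset MRP

/-- The Liouville function as a real number. -/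
noncomputable def lamR (n : ℕ) : ℝ := (-1 : ℝ) ^ (Om n)

theorem lamR_cases (n : ℕ) : lamR n = 1 ∨ lamR n = -1 := neg_one_pow_eq_or ℝ _

theorem mrap : MRC.MRAPx :=
  MRC.mrapx_of mrchi0x_holds mrchi1x_holds (fun ε d hε hd => lawx ε hε d hd)

theorem mean_small (ε : ℝ) (hε : 0 < ε) : ∃ x0 : ℕ, ∀ x : ℕ, x0 ≤ x →
    |MRC.mA x (fun m => (-1 : ℝ) ^ m)| ≤ ε := by
  obtain ⟨x0, h⟩ := lawx ε hε 1 le_rfl
  refine ⟨x0, fun x hx => ?_⟩
  have h1 := (h x hx (fun m => (-1 : ℝ) ^ m) (fun m => by simp)).1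
  have e : mx x (up 1 fun m => (-1 : ℝ) ^ m) = - mx x (fun m => (-1 : ℝ) ^ m) := by
    unfold mx up
    rw [← neg_div, ← Finset.sum_neg_distrib]
    congr 1
    refine Finset.sum_congr rfl fun n _ => ?_
    change (-1 : ℝ) ^ (Om n + 1) = -(-1 : ℝ) ^ (Om n)
    rw [pow_succ]
    ring
  rw [e] at h1
  have h2 : |(-2 : ℝ) * mx x (fun m => (-1 : ℝ) ^ m)| ≤ ε := by
    have : (-2 : ℝ) * mx x (fun m => (-1 : ℝ) ^ m) =
      - mx x (fun m => (-1 : ℝ) ^ m) - mx x (fun m => (-1 : ℝ) ^ m) := by ring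
    rw [this]
    exact h1
  rw [abs_mul] at h2
  have h3 : |(-2 : ℝ)| = 2 := by norm_num
  rw [h3] at h2
  have h4 : MRC.mA x (fun m => (-1 : ℝ) ^ m) = mx x (fun m => (-1 : ℝ) ^ m) := rfl
  rw [h4]
  have := abs_nonneg (mx x (fun m => (-1 : ℝ) ^ m))
  linarith

/-- the window positions -/
def win (n Q r J : ℕ) : Finset ℕ := (Finset.Icc 1 (Q * J)).filter fun j => (n + j) % Q = r % Q

theorem start (n Q r : ℕ) (hQ : 1 ≤ Q) : ∃ j0, 1 ≤ j0 ∧ j0 ≤ Q ∧ (n + j0) % Q = r % Q := by
  refine ⟨(r + (Q - 1) * n + (Q - 1)) % Q + 1, by omega, ?_, ?_⟩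
  · have := Nat.mod_lt (r + (Q - 1) * n + (Q - 1)) (by omega : 0 < Q)
    omega
  · have h1 : n + ((r + (Q - 1) * n + (Q - 1)) % Q + 1) ≡
        n + ((r + (Q - 1) * n + (Q - 1)) + 1) [MOD Q] :=
      Nat.ModEq.add_left _ (Nat.ModEq.add_right _ (Nat.mod_modEq _ _))
    have h2 : n + ((r + (Q - 1) * n + (Q - 1)) + 1) = r + Q * (n + 1) := by
      obtain ⟨Q', rfl⟩ : ∃ Q', Q = Q' + 1 := ⟨Q - 1, by omega⟩
      simp only [Nat.add_sub_cancel]
      ring
    rw [h2] at h1
    have h3 : r + Q * (n + 1) ≡ r [MOD Q] := by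
      unfold Nat.ModEq
      simp
    exact h1.trans h3

theorem win_eq (n Q r J j0 : ℕ) (h1 : 1 ≤ j0) (h2 : j0 ≤ Q)
    (h3 : (n + j0) % Q = r % Q) : win n Q r J = (Finset.range J).image fun i => j0 + i * Q := by
  ext j
  unfold win
  simp only [Finset.mem_filter, Finset.mem_Icc, Finset.mem_image, Finset.mem_range]
  constructor
  · rintro ⟨⟨hj1, hj2⟩, hj3⟩
    have h4 : n + j ≡ n + j0 [MOD Q] := by
      unfold Nat.ModEq
      rw [hj3, h3]
    have h5 : j ≡ j0 [MOD Q] := Nat.ModEq.add_left_cancel' n h4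
    have h6 : j0 ≤ j := by
      by_contra hcon
      push Not at hcon
      have h7 : Q ∣ j0 - j := (Nat.modEq_iff_dvd' hcon.le).1 h5
      have h8 := Nat.le_of_dvd (by omega) h7
      omega
    have h7 : Q ∣ j - j0 := (Nat.modEq_iff_dvd' h6).1 h5.symm
    obtain ⟨i, hi⟩ := h7
    refine ⟨i, ?_, ?_⟩
    · by_contra hcon
      push Not at hcon
      have : Q * J ≤ Q * i := Nat.mul_le_mul_left _ hcon
      omega
    · rw [Nat.mul_comm i Q]
      omega
  · rintro ⟨i, hi, rfl⟩
    refine ⟨⟨by omega, ?_⟩, ?_⟩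
    · have : Q * (i + 1) ≤ Q * J := Nat.mul_le_mul_left _ hi
      have h4 : Q * (i + 1) = i * Q + Q := by ring
      omega
    · rw [← add_assoc, Nat.add_mul_mod_self_right, h3]

/-- a window without sign change has a large sum -/
theorem window_large (f : ℕ → ℝ) (hf : ∀ n, f n = 1 ∨ f n = -1) (n Q r J : ℕ) (hQ : 1 ≤ Q)
    (hno : ∀ j ∈ win n Q r J, j + Q ≤ Q * J → f (n + j) = f (n + j + Q)) (m : ℝ)
    (hm : |m| ≤ 1 / 2) : (J : ℝ) / 2 ≤ |∑ j ∈ win n Q r J, (f (n + j) - m)| := by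
  obtain ⟨j0, h1, h2, h3⟩ := start n Q r hQ
  have hwin := win_eq n Q r J j0 h1 h2 h3
  have hcst : ∀ i, i < J → f (n + (j0 + i * Q)) = f (n + j0) := by
    intro i
    induction i with
    | zero => intro _; simp
    | succ i ih =>
      intro hi
      have hmem : j0 + i * Q ∈ win n Q r J := by
        rw [hwin]
        exact Finset.mem_image.2 ⟨i, Finset.mem_range.2 (by omega), rfl⟩
      have hle : j0 + i * Q + Q ≤ Q * J := by
        have : Q * (i + 2) ≤ Q * J := Nat.mul_le_mul_left _ hi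
        have h4 : Q * (i + 2) = i * Q + Q + Q := by ring
        omega
      have := hno _ hmem hle
      rw [ih (by omega)] at this
      rw [this]
      congr 1
      ring
  rw [hwin, Finset.sum_image]
  · have : ∑ i ∈ Finset.range J, (f (n + (j0 + i * Q)) - m) = J * (f (n + j0) - m) := by
      rw [Finset.sum_congr rfl (fun i hi => by rw [hcst i (Finset.mem_range.1 hi)])]
      rw [Finset.sum_const, Finset.card_range, nsmul_eq_mul]
    rw [this, abs_mul, Nat.abs_cast]
    have h4 : (1 : ℝ) / 2 ≤ |f (n + j0) - m| := by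
      rw [abs_le] at hm
      rcases hf (n + j0) with h | h <;> rw [h]
      · exact le_trans (by linarith) (le_abs_self _)
      · exact le_trans (by linarith) (neg_le_abs _)
    have h5 : (0 : ℝ) ≤ J := Nat.cast_nonneg J
    nlinarith
  · intro a _ b _ hab
    have h4 : a * Q = b * Q := by
      have : j0 + a * Q = j0 + b * Q := hab
      omega
    exact Nat.eq_of_mul_eq_mul_right (by omega) h4

/-- **Sign changes in progressions.** -/
theorem ap_change (Q r : ℕ) (hQ : 1 ≤ Q) : ∃ δ : ℝ, 0 < δ ∧ ∃ N0 : ℕ, ∀ N : ℕ, N0 ≤ N →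
    δ * N ≤ (((Finset.Icc 1 N).filter fun n => n % Q = r % Q ∧ lamR n ≠ lamR (n + Q)).card : ℝ) := by
  classical
  obtain ⟨H0, hH0⟩ := mrap Q hQ (1 / (8 * Q)) (by positivity)
  obtain ⟨x1, hx1⟩ := mean_small (1 / 2) (by norm_num)
  set J : ℕ := H0 + 1 with hJ
  set H : ℕ := Q * J with hH
  have hHH : H0 ≤ H := by
    have : 1 * J ≤ Q * J := Nat.mul_le_mul_right _ hQ
    omega
  have hHpos : 0 < H := Nat.mul_pos hQ (by omega)
  obtain ⟨x0, hx0⟩ := hH0 H hHH
  refine ⟨1 / (4 * H), by positivity, max x0 (max x1 (4 * H * H)), fun N hN => ?_⟩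
  have hN0 : x0 ≤ N := le_trans (le_max_left _ _) hN
  have hN1 : x1 ≤ N := le_trans (le_trans (le_max_left _ _) (le_max_right _ _)) hN
  have hN2 : 4 * H * H ≤ N := le_trans (le_trans (le_max_right _ _) (le_max_right _ _)) hN
  have hsum := hx0 N hN0 (fun m => (-1 : ℝ) ^ m) (fun m => by simp) r
  have hm := hx1 N hN1
  set m := MRC.mA N (fun m => (-1 : ℝ) ^ m) with hmdef
  set noch : ℕ → Prop := fun n => ∀ j ∈ win n Q r J, j + Q ≤ Q * J →
    lamR (n + j) = lamR (n + j + Q) with hnoch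
  -- the bad windows
  have hbad : (((Finset.Icc 1 N).filter noch).card : ℝ) * ((J : ℝ) / 2) ≤
      1 / (8 * Q) * H * N := by
    refine le_trans ?_ hsum
    have : ∀ n ∈ (Finset.Icc 1 N).filter noch, (J : ℝ) / 2 ≤
        |∑ j ∈ (Finset.Icc 1 H).filter (fun j => (n + j) % Q = r % Q),
          ((fun m => (-1 : ℝ) ^ m) (Om (n + j)) - m)| := by
      intro n hn
      exact window_large lamR lamR_cases n Q r J hQ (Finset.mem_filter.1 hn).2 m hm
    calc (((Finset.Icc 1 N).filter noch).card : ℝ) * ((J : ℝ) / 2)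
        = ∑ n ∈ (Finset.Icc 1 N).filter noch, (J : ℝ) / 2 := by
          rw [Finset.sum_const, nsmul_eq_mul]
      _ ≤ _ := Finset.sum_le_sum this
      _ ≤ _ := Finset.sum_le_sum_of_subset_of_nonneg (Finset.filter_subset _ _)
          (fun _ _ _ => abs_nonneg _)
  have hQr : (0 : ℝ) < Q := by exact_mod_cast hQ
  have hJr : (0 : ℝ) < J := by
    have : 0 < J := by omega
    exact_mod_cast this
  have hHr : (H : ℝ) = Q * J := by rw [hH]; push_cast; ring
  have hHr0 : (0 : ℝ) < H := by exact_mod_cast hHpos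
  have hbad2 : (((Finset.Icc 1 N).filter noch).card : ℝ) ≤ N / 4 := by
    have e1 : 1 / (8 * (Q : ℝ)) * H * N = N / 4 * ((J : ℝ) / 2) := by
      rw [hHr]
      field_simp
      ring
    rw [e1] at hbad
    exact le_of_mul_le_mul_right hbad (by positivity)
  -- the good windows
  set C := (Finset.Icc 1 (N + H)).filter fun n => n % Q = r % Q ∧ lamR n ≠ lamR (n + Q) with hC
  have hgood : ((Finset.Icc 1 N).filter fun n => ¬ noch n).card ≤ H * C.card := by
    have hex : ∀ n, ¬ noch n → ∃ j, j ∈ win n Q r J ∧ j + Q ≤ Q * J ∧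
        lamR (n + j) ≠ lamR (n + j + Q) := by
      intro n hn
      simp only [hnoch] at hn
      push Not at hn
      exact hn
    choose! g hg using hex
    refine Finset.card_le_mul_card_image_of_maps_to (f := fun n => n + g n) ?_ H ?_
    · intro n hn
      obtain ⟨hn1, hn2⟩ := Finset.mem_filter.1 hn
      obtain ⟨hg1, hg2, hg3⟩ := hg n hn2
      obtain ⟨hg4, hg5⟩ := Finset.mem_filter.1 hg1
      rw [Finset.mem_Icc] at hn1 hg4
      refine Finset.mem_filter.2 ⟨Finset.mem_Icc.2 ⟨by omega, ?_⟩, hg5, hg3⟩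
      have : g n ≤ H := hg4.2
      change n + g n ≤ N + H
      omega
    · intro b _
      have hsub : ((Finset.Icc 1 N).filter fun n => ¬ noch n).filter (fun a => a + g a = b) ⊆
          Finset.Ico (b - H) b := by
        intro a ha
        obtain ⟨ha1, ha2⟩ := Finset.mem_filter.1 ha
        obtain ⟨ha3, ha4⟩ := Finset.mem_filter.1 ha1
        obtain ⟨hg1, -, -⟩ := hg a ha4
        obtain ⟨hg4, -⟩ := Finset.mem_filter.1 hg1
        rw [Finset.mem_Icc] at hg4
        have h5 : g a ≤ H := hg4.2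
        rw [Finset.mem_Ico]
        omega
      refine (Finset.card_le_card hsub).trans ?_
      rw [Nat.card_Ico]
      omega
  have hsplit : N = ((Finset.Icc 1 N).filter noch).card +
      ((Finset.Icc 1 N).filter fun n => ¬ noch n).card := by
    rw [Finset.card_filter_add_card_filter_not]
    simp
  have hCle : C.card ≤ ((Finset.Icc 1 N).filter fun n => n % Q = r % Q ∧
      lamR n ≠ lamR (n + Q)).card + H := by
    have hsub : C ⊆ ((Finset.Icc 1 N).filter fun n => n % Q = r % Q ∧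
        lamR n ≠ lamR (n + Q)) ∪ Finset.Ioc N (N + H) := by
      intro a ha
      obtain ⟨ha1, ha2⟩ := Finset.mem_filter.1 ha
      rw [Finset.mem_Icc] at ha1
      rw [Finset.mem_union, Finset.mem_filter, Finset.mem_Icc, Finset.mem_Ioc]
      by_cases h : a ≤ N
      · exact Or.inl ⟨⟨ha1.1, h⟩, ha2⟩
      · exact Or.inr ⟨by omega, ha1.2⟩
    refine (Finset.card_le_card hsub).trans ((Finset.card_union_le _ _).trans ?_)
    rw [Nat.card_Ioc]
    omega
  set c := ((Finset.Icc 1 N).filter fun n => n % Q = r % Q ∧ lamR n ≠ lamR (n + Q)).card with hc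
  have h1 : (N : ℝ) ≤ N / 4 + H * (c + H) := by
    have h2 : (N : ℝ) = (((Finset.Icc 1 N).filter noch).card : ℝ) +
        (((Finset.Icc 1 N).filter fun n => ¬ noch n).card : ℝ) := by exact_mod_cast hsplit
    have h3 : ((((Finset.Icc 1 N).filter fun n => ¬ noch n).card : ℕ) : ℝ) ≤ H * (c + H) := by
      have h4 : ((Finset.Icc 1 N).filter fun n => ¬ noch n).card ≤ H * (c + H) :=
        hgood.trans (Nat.mul_le_mul_left _ hCle)
      exact_mod_cast h4
    linarith
  have h2 : 4 * (H : ℝ) * H ≤ N := by exact_mod_cast hN2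
  rw [div_mul_eq_mul_div, one_mul, div_le_iff₀ (by positivity)]
  nlinarith

end NE
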