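import Pool.Agent.Helper72.UGA.Bad
import Pool.Agent.Helper72.UGD.NoGap
import Pool.Agent.Helper11.MRA.Seq
import Pool.Agent.Helper8.NE.ApChange

/-!
# All correlations of the Liouville function in progressions take both signs at every scale

For every finite nonempty set `B` of shifts, all `q ≥ 1`, `r`: the `n ≤ N`, `n ≡ r (mod q)`, with
`∏_{b ∈ B} λ(n + b) = s` have positive lower density, for both signs `s`.
The entropy decrement is `UGA.bad`, the absence of a gap along primes is `UGD.nogap`.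
-/

set_option autoImplicit false

namespace NE

open Finset MRP UGD
open MRA (seqP seqP_ge seqP_mono seqP_div)

/-- the average over `p ∈ (P, 2P]` of the discrepancies -/
noncomputable def QF (X P : ℕ) (Φ : ℕ → ℕ → ℝ) : ℝ :=
  (1 / ((dyP P).card : ℝ)) * ∑ p ∈ dyP P, |∑ n ∈ Icc 1 X,
    ((if p ∣ n then (p : ℝ) else 0) - 1) * Φ p n|

/-- the entropy decrement for functions of the pattern of `Ω mod 2` on `[n, n + w P]` and of
`n mod q` -/
def Dec (q w : ℕ) : Prop :=
  ∀ ε : ℝ, 0 < ε → ∃ K C : ℝ, 0 < K ∧ 0 < C ∧ ∃ Pstar : ℕ, 3 ≤ Pstar ∧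
    ∀ P0 : ℕ, Pstar ≤ P0 → ∀ I : ℕ, ∃ X0 : ℕ, ∀ X : ℕ, X0 ≤ X → ∀ Φ : ℕ → ℕ → ℝ,
      (∀ p n, |Φ p n| ≤ 1) →
      (∀ P, ∀ p ∈ dyP P, ∀ n n', n % q = n' % q → (∀ j < w * P, gg (n + j) = gg (n' + j)) →
        Φ p n = Φ p n') →
      ∑ i ∈ range I, (if ε * X < QF X (seqP K P0 i) Φ then 1 / Real.log (seqP K P0 i) else 0) ≤ C

/-- **Entropy decrement.** -/
theorem dec (q w : ℕ) (hq : 0 < q) (hw : 0 < w) : Dec q w := by
  classical
  intro ε hε
  have : Inhabited (Fin q) := ⟨⟨0, hq⟩⟩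
  obtain ⟨K, C, hK, hC, Pstar, hP3, h⟩ := UGA.bad (ZMod 2 × Fin q) w ε hε
  refine ⟨K, C, hK, hC, Pstar, hP3, fun P0 hP0 I => ?_⟩
  obtain ⟨X0, hX0⟩ := h P0 hP0 I
  refine ⟨X0, fun X hX Φ h1 h2 => ?_⟩
  set c : ℕ → ZMod 2 × Fin q := fun n => (gg n, ⟨n % q, Nat.mod_lt _ hq⟩) with hc
  set G : ℕ → (ℕ → Prop) → ℝ := fun p S => if hS : ∃ n, S n then Φ p hS.choose else 0 with hG
  set Ψ : ℕ → (ℕ → ZMod 2 × Fin q) → ℝ := fun p c' => G p (fun n => ∀ j < w * p, c' j = c (n + j))
    with hΨ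
  have hG1 : ∀ p S, |G p S| ≤ 1 := by
    intro p S
    simp only [hG]
    split_ifs
    · exact h1 _ _
    · simp
  have hloc : UGA.Loc w Ψ := by
    intro p c1 c2 h3
    simp only [hΨ]
    congr 1
    funext n
    refine propext ⟨fun h4 j hj => ?_, fun h4 j hj => ?_⟩
    · rw [← h3 j hj]; exact h4 j hj
    · rw [h3 j hj]; exact h4 j hj
  have hval : ∀ P, ∀ p ∈ dyP P, ∀ n, Ψ p (fun i => c (n + i)) = Φ p n := by
    intro P p hp n
    have hpP : P < p := (Finset.mem_Ioc.1 (Finset.mem_filter.1 hp).1).1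
    have hex : ∃ n', ∀ j < w * p, c (n + j) = c (n' + j) := ⟨n, fun _ _ => rfl⟩
    have h3 : Ψ p (fun i => c (n + i)) = Φ p hex.choose := by
      simp only [hΨ, hG]
      rw [dif_pos hex]
    rw [h3]
    have h4 := hex.choose_spec
    set n₀ := hex.choose
    have h5 : ∀ j < w * p, gg (n₀ + j) = gg (n + j) ∧ (n₀ + j) % q = (n + j) % q := by
      intro j hj
      have h6 := h4 j hj
      simp only [hc, Prod.mk.injEq, Fin.mk.injEq] at h6
      exact ⟨h6.1.symm, h6.2.symm⟩
    have hwp : 0 < w * p := Nat.mul_pos hw (by omega)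
    refine h2 P p hp n₀ n ?_ fun j hj => (h5 j (hj.trans_le ?_)).1
    · exact (h5 0 hwp).2
    · exact Nat.mul_le_mul_left w hpP.le
  have hQ : ∀ P, UGA.QAG Ψ X P c = QF X P Φ := by
    intro P
    unfold UGA.QAG QF UGA.gG
    congr 1
    refine Finset.sum_congr rfl fun p hp => ?_
    congr 1
    refine Finset.sum_congr rfl fun n _ => ?_
    rw [hval P p hp n]
  have h6 := hX0 X hX c Ψ (fun p c' => hG1 _ _) hloc
  simp only [hQ] at h6
  exact h6

/-- one good scale -/
theorem good_scale (q w : ℕ) (hq : 0 < q) (hw : 0 < w) (ε : ℝ) (hε : 0 < ε) (P0 : ℕ) : ∃ P1 X0 : ℕ,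
    P0 ≤ P1 ∧ ∀ X : ℕ, X0 ≤ X → ∀ Φ : ℕ → ℕ → ℝ, (∀ p n, |Φ p n| ≤ 1) →
      (∀ P, ∀ p ∈ dyP P, ∀ n n', n % q = n' % q → (∀ j < w * P, gg (n + j) = gg (n' + j)) →
        Φ p n = Φ p n') → ∃ P, P0 ≤ P ∧ P ≤ P1 ∧ QF X P Φ ≤ ε * X := by
  obtain ⟨K, C, hK, hC, Pstar, hP3, h⟩ := dec q w hq hw ε hε
  set Q0 := max Pstar P0 with hQ0
  obtain ⟨I, hI⟩ := seqP_div K hK Q0 (hP3.trans (le_max_left _ _)) (C + 1)
  obtain ⟨X0, hX0⟩ := h Q0 (le_max_left _ _) I
  refine ⟨seqP K Q0 I, X0, (le_max_right _ _).trans (seqP_ge K Q0 I), fun X hX Φ h1 h2 => ?_⟩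
  by_contra hcon
  push Not at hcon
  have h3 := hX0 X hX Φ h1 h2
  have h4 : ∑ i ∈ range I,
      (if ε * X < QF X (seqP K Q0 i) Φ then 1 / Real.log (seqP K Q0 i) else 0) =
      ∑ i ∈ range I, 1 / Real.log (seqP K Q0 i) := by
    refine Finset.sum_congr rfl fun i hi => ?_
    rw [if_pos]
    exact hcon _ ((le_max_right _ _).trans (seqP_ge K Q0 i))
      (seqP_mono K Q0 (Finset.mem_range.1 hi).le)
  rw [h4] at h3
  linarith

theorem Om_pmul {p m : ℕ} (hp : p.Prime) (hm : 1 ≤ m) : gg (p * m) = 1 + gg m := by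
  unfold gg Om
  rw [ArithmeticFunction.cardFactors_mul hp.ne_zero (by omega),
    ArithmeticFunction.cardFactors_apply_prime hp]
  push_cast
  rfl

/-- the main theorem for at least two shifts, in terms of `Ω mod 2` -/
theorem signs_two (B : Finset ℕ) (hB : 2 ≤ B.card) (q r : ℕ) (hq : 1 ≤ q) (t : ZMod 2) : ∃ δ : ℝ, 0 < δ ∧ ∃ N0 : ℕ, ∀ N : ℕ, N0 ≤ N →
      δ * N ≤ (((Icc 1 N).filter fun n => n % q = r % q ∧ ∑ b ∈ B, gg (n + b) = t).card : ℝ) := by
  classical
  have hne : B.Nonempty := Finset.card_pos.1 (by omega)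
  set H := B.max' hne with hH
  have hHB : H ∈ B := Finset.max'_mem B hne
  set d := (B.erase H).card with hd
  have hd1 : 1 ≤ d := by rw [hd, Finset.card_erase_of_mem hHB]; omega
  set e : Fin d ≃ (B.erase H) := (Finset.equivFin (B.erase H)).symm with he
  set h : Fin d → ℕ := fun i => (e i : ℕ) with hh
  have hhlt : ∀ i, h i < H := by
    intro i
    have h1 := (e i).2
    rw [Finset.mem_erase] at h1
    exact lt_of_le_of_ne (Finset.le_max' B _ h1.2) h1.1
  have hsum : ∀ f : ℕ → ZMod 2, ∑ b ∈ B, f b = (∑ j, f (h j)) + f H := by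
    intro f
    rw [← Finset.sum_erase_add B f hHB, ← Finset.sum_coe_sort (B.erase H) f]
    congr 1
    exact (Equiv.sum_comp e (fun x : (B.erase H) => f x)).symm
  obtain ⟨δ₁, hδ₁, hng⟩ := nogap d q hd1 hq
  obtain ⟨P₀, hP₀⟩ := hng h H hhlt
  obtain ⟨P1, X0, hP01, hgood⟩ := good_scale q (2 * H + 1) hq (by omega) (δ₁ / 2) (by positivity)
    (max P₀ (q + 1))
  have hP1pos : 0 < P1 := by
    have := le_max_right P₀ (q + 1)
    omega
  have hP1r : (0 : ℝ) < P1 := by exact_mod_cast hP1pos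
  choose M₀ hM₀ using fun P : {P // P₀ ≤ P} => hP₀ P.1 P.2
  set M₁ : ℕ := ∑ P ∈ Finset.range (P1 + 1), (if hP : P₀ ≤ P then M₀ ⟨P, hP⟩ else 0) with hM₁
  refine ⟨δ₁ / (4 * P1), by positivity, max X0 M₁, fun N hN => ?_⟩
  by_contra hcon
  rw [not_le] at hcon
  set τ : ZMod 2 := B.card + t + 1 with hτ
  set ρ : ℕ → ℕ := fun a => (a * r) % q with hρ
  set bad : ℕ → ℕ → Prop := fun p n => n % q = ρ (p % q) ∧
    (∑ j, gg (n + p * h j)) + gg (n + p * H) ≠ τ with hbad
  set Φ : ℕ → ℕ → ℝ := fun p n => if bad p n then 1 else 0 with hΦ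
  have hΦv : ∀ p n, Φ p n = if bad p n then 1 else 0 := fun p n => rfl
  obtain ⟨P, hP1, hP2, hQF⟩ := hgood N (le_trans (le_max_left _ _) hN) Φ (by
    intro p n
    rw [hΦv]
    split_ifs <;> simp) (by
    intro P p hp n n' hn hj
    have hp2 : p ≤ 2 * P := (Finset.mem_Ioc.1 (Finset.mem_filter.1 hp).1).2
    have hpP : P < p := (Finset.mem_Ioc.1 (Finset.mem_filter.1 hp).1).1
    have key : ∀ j ≤ H, gg (n + p * j) = gg (n' + p * j) := by
      intro j hjH
      apply hj
      calc p * j ≤ (2 * P) * H := Nat.mul_le_mul hp2 hjH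
        _ < (2 * H + 1) * P := by nlinarith [hpP, hp2]
    have hb : bad p n ↔ bad p n' := by
      simp only [hbad]
      rw [hn, key H le_rfl, Finset.sum_congr rfl fun j _ => key (h j) (hhlt j).le]
    rw [hΦv, hΦv]
    simp only [hb])
  have hPP₀ : P₀ ≤ P := (le_max_left _ _).trans hP1
  have hPq : q < P := by
    have := (le_max_right P₀ (q + 1)).trans hP1
    omega
  have hNM : M₀ ⟨P, hPP₀⟩ ≤ N := by
    have h1 : M₀ ⟨P, hPP₀⟩ ≤ M₁ := by
      rw [hM₁]
      have h2 := Finset.single_le_sum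
        (f := fun P => (if hP : P₀ ≤ P then M₀ ⟨P, hP⟩ else 0)) (fun _ _ => Nat.zero_le _)
        (Finset.mem_range.2 (Nat.lt_succ_of_le hP2))
      simp only [dif_pos hPP₀] at h2
      exact h2
    exact h1.trans ((le_max_right _ _).trans hN)
  have hnog := hM₀ ⟨P, hPP₀⟩ N hNM ρ (fun _ => τ) (fun a => Nat.mod_lt _ hq)
  -- upper bound for one prime
  have hone : ∀ p ∈ dyP P, (((Icc 1 N).filter (fun n => n % q = ρ (p % q) ∧
      (∑ j, gg (n + p * h j)) + gg (n + p * H) ≠ τ)).card : ℝ) ≤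
      |∑ n ∈ Icc 1 N, ((if p ∣ n then (p : ℝ) else 0) - 1) * Φ p n| + δ₁ / 2 * N := by
    intro p hp
    have hpr : p.Prime := (Finset.mem_filter.1 hp).2
    have hp2 : p ≤ 2 * P := (Finset.mem_Ioc.1 (Finset.mem_filter.1 hp).1).2
    have hpP : P < p := (Finset.mem_Ioc.1 (Finset.mem_filter.1 hp).1).1
    have hcop : Nat.Coprime p q := by
      rw [Nat.Prime.coprime_iff_not_dvd hpr]
      intro hdvd
      have := Nat.le_of_dvd hq hdvd
      omega
    have e1 : (((Icc 1 N).filter (fun n => n % q = ρ (p % q) ∧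
        (∑ j, gg (n + p * h j)) + gg (n + p * H) ≠ τ)).card : ℝ) =
        ∑ n ∈ Icc 1 N, Φ p n := by
      rw [Finset.card_filter]
      push_cast
      refine Finset.sum_congr rfl fun n _ => ?_
      rw [hΦv]
    have e2 : ∑ n ∈ Icc 1 N, ((if p ∣ n then (p : ℝ) else 0) - 1) * Φ p n =
        ∑ n ∈ Icc 1 N, (if p ∣ n then (p : ℝ) else 0) * Φ p n - ∑ n ∈ Icc 1 N, Φ p n := by
      rw [← Finset.sum_sub_distrib]
      refine Finset.sum_congr rfl fun n _ => ?_
      ring
    have e3 : ∑ n ∈ Icc 1 N, (if p ∣ n then (p : ℝ) else 0) * Φ p n =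
        p * (((Icc 1 N).filter (fun n => p ∣ n ∧ bad p n)).card : ℝ) := by
      rw [Finset.card_filter]
      push_cast
      rw [Finset.mul_sum]
      refine Finset.sum_congr rfl fun n _ => ?_
      rw [hΦv]
      by_cases h1 : p ∣ n <;> by_cases h2 : bad p n <;> simp [h1, h2]
    have e4 : ((Icc 1 N).filter (fun n => p ∣ n ∧ bad p n)).card ≤
        ((Icc 1 N).filter fun n => n % q = r % q ∧ ∑ b ∈ B, gg (n + b) = t).card := by
      refine Finset.card_le_card_of_injOn (fun n => n / p) ?_ ?_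
      · intro n hn
        rw [Finset.mem_coe, Finset.mem_filter, Finset.mem_Icc] at hn
        obtain ⟨⟨hn1, hn2⟩, ⟨m, rfl⟩, hb1, hb2⟩ := hn
        have hm1 : 1 ≤ m := by
          rcases Nat.eq_zero_or_pos m with h0 | h0
          · rw [h0, mul_zero] at hn1; omega
          · exact h0
        rw [Finset.mem_coe, Finset.mem_filter, Finset.mem_Icc]
        simp only [Nat.mul_div_cancel_left m hpr.pos]
        refine ⟨⟨hm1, (Nat.le_mul_of_pos_left m hpr.pos).trans hn2⟩, ?_, ?_⟩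
        · have h3 : p * m ≡ p * r [MOD q] := by
            have h4 : p * m % q = (p % q * r) % q := hb1
            rw [Nat.ModEq, h4, Nat.mod_mul_mod]
          exact Nat.ModEq.cancel_left_of_coprime (by rw [Nat.Coprime] at hcop; rwa [Nat.gcd_comm]) h3
        · have h5 : (∑ j, gg (p * m + p * h j)) + gg (p * m + p * H) =
              ∑ b ∈ B, gg (p * m + p * b) := (hsum fun b => gg (p * m + p * b)).symm
          have h6 : ∑ b ∈ B, gg (p * m + p * b) = B.card + ∑ b ∈ B, gg (m + b) := by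
            rw [Finset.sum_congr rfl fun b _ => by
              rw [← mul_add, Om_pmul hpr (by omega)], Finset.sum_add_distrib]
            simp
          rw [h5, h6, hτ] at hb2
          have h7 : ∀ x c t : ZMod 2, c + x ≠ c + t + 1 → x = t := by decide
          exact h7 _ _ _ hb2
      · intro n hn n' hn' he
        have h1 := (Finset.mem_filter.1 (Finset.mem_coe.1 hn)).2.1
        have h2 := (Finset.mem_filter.1 (Finset.mem_coe.1 hn')).2.1
        simp only at he
        rw [← Nat.div_mul_cancel h1, ← Nat.div_mul_cancel h2, he]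
    have e5 : (p : ℝ) * (((Icc 1 N).filter (fun n => p ∣ n ∧ bad p n)).card : ℝ) ≤
        δ₁ / 2 * N := by
      have h1 : (((Icc 1 N).filter (fun n => p ∣ n ∧ bad p n)).card : ℝ) ≤
          δ₁ / (4 * P1) * N := le_trans (by exact_mod_cast e4) hcon.le
      have h2 : (p : ℝ) ≤ 2 * P1 := by
        have : p ≤ 2 * P1 := hp2.trans (Nat.mul_le_mul_left 2 hP2)
        exact_mod_cast this
      calc (p : ℝ) * (((Icc 1 N).filter (fun n => p ∣ n ∧ bad p n)).card : ℝ)
          ≤ (2 * P1) * (δ₁ / (4 * P1) * N) :=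
            mul_le_mul h2 h1 (Nat.cast_nonneg _) (by positivity)
        _ = δ₁ / 2 * N := by field_simp; ring
    rw [e1]
    have e6 := neg_le_abs (∑ n ∈ Icc 1 N, ((if p ∣ n then (p : ℝ) else 0) - 1) * Φ p n)
    rw [e3] at e2
    linarith
  have hall := Finset.sum_le_sum hone
  rw [Finset.sum_add_distrib, Finset.sum_const, nsmul_eq_mul] at hall
  have hcard : 0 < (dyP P).card := by
    by_contra h0
    have h1 : dyP P = ∅ := Finset.card_eq_zero.1 (by omega)
    rw [h1] at hnog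
    simp at hnog
  have hcr : (0 : ℝ) < (dyP P).card := by exact_mod_cast hcard
  have hQ2 : ∑ p ∈ dyP P, |∑ n ∈ Icc 1 N, ((if p ∣ n then (p : ℝ) else 0) - 1) * Φ p n| ≤
      (dyP P).card * (δ₁ / 2 * N) := by
    unfold QF at hQF
    rw [one_div, inv_mul_le_iff₀ hcr] at hQF
    exact hQF
  have hfin : δ₁ * (dyP P).card * N < δ₁ * (dyP P).card * N := by
    calc δ₁ * (dyP P).card * N < _ := hnog
      _ ≤ _ := hall
      _ ≤ (dyP P).card * (δ₁ / 2 * N) + (dyP P).card * (δ₁ / 2 * N) := by gcongr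
      _ = δ₁ * (dyP P).card * N := by ring
  exact lt_irrefl _ hfin

/-- one shift -/
theorem signs_one (b q r : ℕ) (hq : 1 ≤ q) (t : ZMod 2) : ∃ δ : ℝ, 0 < δ ∧ ∃ N0 : ℕ, ∀ N : ℕ,
    N0 ≤ N → δ * N ≤ (((Icc 1 N).filter fun n => n % q = r % q ∧ gg (n + b) = t).card : ℝ) := by
  classical
  obtain ⟨δ, hδ, N1, hN1⟩ := ap_change q (r + b) hq
  obtain ⟨N2, hN2⟩ := exists_nat_gt (2 * (b + q) / δ)
  refine ⟨δ / 4, by positivity, max N1 N2, fun N hN => ?_⟩
  have h1 := hN1 N (le_trans (le_max_left _ _) hN)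
  set S := (Finset.Icc 1 N).filter fun n => n % q = (r + b) % q ∧ lamR n ≠ lamR (n + q) with hS
  set T : ℕ → Finset ℕ := fun M => (Icc 1 M).filter fun n => n % q = r % q ∧ gg (n + b) = t with hT
  have hsub : S ⊆ Icc 1 b ∪ ((T N).image (fun m => m + b) ∪
      (T (N + q)).image (fun m => m + b - q)) := by
    intro n hn
    rw [hS, Finset.mem_filter, Finset.mem_Icc] at hn
    obtain ⟨⟨hn1, hn2⟩, hn3, hn4⟩ := hn
    rw [Finset.mem_union, Finset.mem_union]
    by_cases hnb : n ≤ b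
    · left; exact Finset.mem_Icc.2 ⟨hn1, hnb⟩
    · right
      rw [not_le] at hnb
      have hne := gg_ne hn4
      have hcong : (n - b) % q = r % q ∧ (n + q - b) % q = r % q := by
        have h3 : (n - b) ≡ r [MOD q] := by
          have h4 : n - b + b ≡ r + b [MOD q] := by
            rw [Nat.sub_add_cancel hnb.le]
            exact hn3
          exact Nat.ModEq.add_right_cancel' b h4
        refine ⟨h3, ?_⟩
        have h5 : n + q - b = (n - b) + q := by omega
        rw [h5, Nat.add_mod_right]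
        exact h3
      by_cases h5 : gg n = t
      · left
        rw [Finset.mem_image]
        refine ⟨n - b, ?_, by omega⟩
        rw [hT, Finset.mem_filter, Finset.mem_Icc]
        refine ⟨⟨by omega, by omega⟩, hcong.1, ?_⟩
        rw [Nat.sub_add_cancel hnb.le]
        exact h5
      · right
        rw [Finset.mem_image]
        refine ⟨n + q - b, ?_, by omega⟩
        rw [hT, Finset.mem_filter, Finset.mem_Icc]
        refine ⟨⟨by omega, by omega⟩, hcong.2, ?_⟩
        rw [Nat.sub_add_cancel (by omega)]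
        have h6 : ∀ x y t : ZMod 2, x ≠ y → x ≠ t → y = t := by decide
        exact h6 _ _ _ hne h5
  have hT2 : (T (N + q)).card ≤ (T N).card + q := by
    have h3 : T (N + q) ⊆ T N ∪ Finset.Ioc N (N + q) := by
      intro m hm
      rw [hT, Finset.mem_filter, Finset.mem_Icc] at hm
      rw [Finset.mem_union]
      by_cases h4 : m ≤ N
      · left
        rw [hT, Finset.mem_filter, Finset.mem_Icc]
        exact ⟨⟨hm.1.1, h4⟩, hm.2⟩
      · right
        rw [Finset.mem_Ioc]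
        omega
    refine (Finset.card_le_card h3).trans ((Finset.card_union_le _ _).trans ?_)
    rw [Nat.card_Ioc]
    omega
  have h2 : S.card ≤ b + ((T N).card + ((T N).card + q)) := by
    refine (Finset.card_le_card hsub).trans ((Finset.card_union_le _ _).trans ?_)
    refine Nat.add_le_add (by simp) ((Finset.card_union_le _ _).trans ?_)
    exact Nat.add_le_add Finset.card_image_le (Finset.card_image_le.trans hT2)
  have h3 : (S.card : ℝ) ≤ b + ((T N).card + ((T N).card + q)) := by exact_mod_cast h2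
  have h4 : 2 * ((b : ℝ) + q) < δ * N := by
    rw [div_lt_iff₀ hδ] at hN2
    have h5 : (N2 : ℝ) ≤ N := by exact_mod_cast le_trans (le_max_right _ _) hN
    nlinarith
  have h5 : ((T N).card : ℝ) = (((Icc 1 N).filter fun n => n % q = r % q ∧ gg (n + b) = t).card : ℝ) :=
    rfl
  rw [← h5]
  linarith

/-- at least one shift, one class, one sign -/
theorem signs_gg (B : Finset ℕ) (hB : B.Nonempty) (q r : ℕ) (hq : 1 ≤ q) (t : ZMod 2) :
    ∃ δ : ℝ, 0 < δ ∧ ∃ N0 : ℕ, ∀ N : ℕ, N0 ≤ N →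
      δ * N ≤ (((Icc 1 N).filter fun n => n % q = r % q ∧ ∑ b ∈ B, gg (n + b) = t).card : ℝ) := by
  by_cases h : 2 ≤ B.card
  · exact signs_two B h q r hq t
  · have h1 : B.card = 1 := by
      have := Finset.card_pos.2 hB
      omega
    obtain ⟨b, rfl⟩ := Finset.card_eq_one.1 h1
    simp only [Finset.sum_singleton]
    exact signs_one b q r hq t

theorem prod_lamR (B : Finset ℕ) (n : ℕ) (s : ℤ) (hs : s = 1 ∨ s = -1) :
    ∏ b ∈ B, lamR (n + b) = s ↔ ∑ b ∈ B, gg (n + b) = if s = 1 then 0 else 1 := by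
  have h1 : ∏ b ∈ B, lamR (n + b) = (-1 : ℝ) ^ (∑ b ∈ B, Om (n + b)) := by
    unfold lamR
    rw [Finset.prod_pow_eq_pow_sum]
  have h2 : ∑ b ∈ B, gg (n + b) = ((∑ b ∈ B, Om (n + b) : ℕ) : ZMod 2) := by
    unfold gg
    push_cast
    rfl
  rw [h1, h2]
  set k := ∑ b ∈ B, Om (n + b)
  rcases Nat.even_or_odd k with hk | hk
  · have h3 : ((k : ℕ) : ZMod 2) = 0 := (ZMod.natCast_eq_zero_iff_even).2 hk
    rw [hk.neg_one_pow, h3]
    rcases hs with rfl | rfl
    · simp
    · norm_num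
  · have h3 : ((k : ℕ) : ZMod 2) = 1 := (ZMod.natCast_eq_one_iff_odd).2 hk
    rw [hk.neg_one_pow, h3]
    rcases hs with rfl | rfl
    · norm_num
    · norm_num

/-- **Every scale.** For every finite nonempty set `B` of shifts and every modulus `q` there is
`δ > 0` such that for all large `N`, in every residue class modulo `q`, each of the values
`±1` is taken by `∏ λ(n + b)` for at least `δ N` of the `n ≤ N` in this class. -/
theorem signs_ap (B : Finset ℕ) (hB : B.Nonempty) (q : ℕ) (hq : 1 ≤ q) :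
    ∃ δ : ℝ, 0 < δ ∧ ∃ N0 : ℕ, ∀ N : ℕ, N0 ≤ N → ∀ r : ℕ, ∀ s : ℤ, (s = 1 ∨ s = -1) →
      δ * N ≤ (((Icc 1 N).filter fun n => n % q = r % q ∧
        ∏ b ∈ B, lamR (n + b) = s).card : ℝ) := by
  classical
  choose δ hδ N0 hN0 using fun x : ℕ × ZMod 2 => signs_gg B hB q x.1 hq x.2
  set I : Finset (ℕ × ZMod 2) := Finset.range q ×ˢ Finset.univ with hI
  have hIne : I.Nonempty := ⟨(0, 0), by
    rw [hI, Finset.mem_product]
    exact ⟨Finset.mem_range.2 hq, Finset.mem_univ _⟩⟩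
  refine ⟨I.inf' hIne δ, (Finset.lt_inf'_iff hIne).2 fun x _ => hδ x, I.sup N0,
    fun N hN r s hs => ?_⟩
  have hmem : (r % q, if s = 1 then (0 : ZMod 2) else 1) ∈ I := by
    rw [hI, Finset.mem_product]
    exact ⟨Finset.mem_range.2 (Nat.mod_lt _ hq), Finset.mem_univ _⟩
  have h1 := hN0 _ N ((Finset.le_sup hmem).trans hN)
  have h2 : I.inf' hIne δ ≤ δ (r % q, if s = 1 then (0 : ZMod 2) else 1) :=
    Finset.inf'_le _ hmem
  have h3 : I.inf' hIne δ * N ≤ δ (r % q, if s = 1 then (0 : ZMod 2) else 1) * N :=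
    mul_le_mul_of_nonneg_right h2 (Nat.cast_nonneg _)
  refine (h3.trans h1).trans (le_of_eq ?_)
  congr 2
  refine Finset.filter_congr fun n _ => ?_
  rw [prod_lamR B n s hs, Nat.mod_mod]

/-- **Every scale**, in terms of the correlations. -/
theorem corr_ap (B : Finset ℕ) (hB : B.Nonempty) (q : ℕ) (hq : 1 ≤ q) :
    ∃ δ : ℝ, 0 < δ ∧ ∃ N0 : ℕ, ∀ N : ℕ, N0 ≤ N → ∀ r : ℕ,
      |∑ n ∈ (Icc 1 N).filter (fun n => n % q = r % q), ∏ b ∈ B, lamR (n + b)| ≤
        (1 / q - δ) * N := by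
  classical
  obtain ⟨δ, hδ, N1, h⟩ := signs_ap B hB q hq
  obtain ⟨N2, hN2⟩ := exists_nat_gt (1 / δ)
  refine ⟨δ, hδ, max N1 N2, fun N hN r => ?_⟩
  have h1 := h N (le_trans (le_max_left _ _) hN) r 1 (Or.inl rfl)
  have h2 := h N (le_trans (le_max_left _ _) hN) r (-1) (Or.inr rfl)
  have hN3 : 1 < δ * N := by
    rw [div_lt_iff₀ hδ] at hN2
    have h5 : (N2 : ℝ) ≤ N := by exact_mod_cast le_trans (le_max_right _ _) hN
    nlinarith
  set A := (Icc 1 N).filter (fun n => n % q = r % q) with hA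
  set f : ℕ → ℝ := fun n => ∏ b ∈ B, lamR (n + b) with hf
  have hcases : ∀ n, f n = 1 ∨ f n = -1 := by
    intro n
    simp only [hf]
    induction B using Finset.induction_on with
    | empty => simp
    | insert a s ha ih =>
      clear ih
      have : ∀ u : Finset ℕ, ∏ b ∈ u, lamR (n + b) = 1 ∨ ∏ b ∈ u, lamR (n + b) = -1 := by
        intro u
        induction u using Finset.induction_on with
        | empty => simp
        | insert a s ha ih =>
          rw [Finset.prod_insert ha]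
          rcases ih with h | h <;> rcases lamR_cases (n + a) with h' | h' <;> rw [h, h'] <;>
            norm_num
      exact this _
  have hAc : (A.card : ℝ) ≤ N / q + 1 := by
    have hqR : (0 : ℝ) < q := by exact_mod_cast hq
    have h3 : A.card ≤ N / q + 1 := by
      have h4 : A ⊆ (Finset.range (N / q + 1)).image (fun k => k * q + r % q) := by
        intro n hn
        rw [hA, Finset.mem_filter, Finset.mem_Icc] at hn
        rw [Finset.mem_image]
        refine ⟨n / q, Finset.mem_range.2 (Nat.lt_succ_of_le (Nat.div_le_div_right hn.1.2)), ?_⟩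
        rw [← hn.2, mul_comm]
        exact Nat.div_add_mod n q
      refine (Finset.card_le_card h4).trans (Finset.card_image_le.trans ?_)
      rw [Finset.card_range]
    have h4 : ((N / q : ℕ) : ℝ) ≤ (N : ℝ) / q := Nat.cast_div_le
    have h5 : (A.card : ℝ) ≤ ((N / q : ℕ) : ℝ) + 1 := by exact_mod_cast h3
    linarith
  have key : ∀ s : ℤ, (s = 1 ∨ s = -1) → (s : ℝ) * ∑ n ∈ A, f n =
      A.card - 2 * ((A.filter fun n => f n = ((-s : ℤ) : ℝ)).card : ℝ) := by
    intro s hs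
    have e1 : (A.card : ℝ) - 2 * ((A.filter fun n => f n = ((-s : ℤ) : ℝ)).card : ℝ) =
        ∑ n ∈ A, ((1 : ℝ) - 2 * (if f n = ((-s : ℤ) : ℝ) then 1 else 0)) := by
      rw [Finset.sum_sub_distrib, ← Finset.mul_sum, Finset.sum_boole]
      simp
    rw [e1, Finset.mul_sum]
    refine Finset.sum_congr rfl fun n _ => ?_
    rcases hs with rfl | rfl <;> rcases hcases n with h' | h' <;> rw [h'] <;> norm_num
  have hfil : ∀ s : ℤ, (A.filter fun n => f n = (s : ℝ)) =
      (Icc 1 N).filter fun n => n % q = r % q ∧ ∏ b ∈ B, lamR (n + b) = s := by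
    intro s
    rw [hA, Finset.filter_filter]
  have k1 := key 1 (Or.inl rfl)
  have k2 := key (-1) (Or.inr rfl)
  rw [hfil] at k1 k2
  have hr : (1 / (q : ℝ) - δ) * N = N / q - δ * N := by ring
  rw [hr, abs_le]
  simp only [neg_neg] at k1 k2
  push_cast at k1 k2 h1 h2
  constructor
  · linarith
  · linarith

end NE
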