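import Pool.Agent.Helper8.NE.ApChange
import Pool.Agent.Helper8.Shelved.SignTransfer

/-!
# All correlations of the Liouville function are bounded away from `±1` at every scale
-/

set_option autoImplicit false

namespace NE

open Finset MRP

open Pool.Agent.Results.MP_e6fa8b_nt.SignTransfer in
theorem F_eq_lamR (B : Finset ℕ) (n : ℕ) : ((F B n : ℤ) : ℝ) = ∏ b ∈ B, lamR (n + b) := by
  unfold F lamR
  push_cast
  rfl

open Pool.Agent.Results.MP_e6fa8b_nt.SignTransfer in
theorem F_cases (B : Finset ℕ) (n : ℕ) : F B n = 1 ∨ F B n = -1 := by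
  have h : ((F B n : ℤ) : ℝ) = 1 ∨ ((F B n : ℤ) : ℝ) = -1 := by
    rw [F_eq_lamR]
    induction B using Finset.induction_on with
    | empty => simp
    | insert a s ha ih =>
      rw [Finset.prod_insert ha]
      rcases ih with h | h <;> rcases lamR_cases (n + a) with h' | h' <;> rw [h, h'] <;> norm_num
  rcases h with h | h
  · left; exact_mod_cast h
  · right; exact_mod_cast h

open Pool.Agent.Results.MP_e6fa8b_nt.SignTransfer in
/-- both signs have positive lower density -/
theorem both_signs (B : Finset ℕ) (hB : B.Nonempty) : ∃ δ : ℝ, 0 < δ ∧ ∃ N0 : ℕ, ∀ N : ℕ,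
    N0 ≤ N → ∀ ε : ℤ, (ε = 1 ∨ ε = -1) →
      δ * N ≤ (((Finset.Icc 1 N).filter fun n => F B n = ε).card : ℝ) := by
  classical
  obtain ⟨δ, hδ, N1, hN1⟩ := ap_change 1 0 le_rfl
  obtain ⟨C1, hC1⟩ := result {0, 1} B (by decide) hB 1 (Or.inl rfl)
  obtain ⟨C2, hC2⟩ := result {0, 1} B (by decide) hB (-1) (Or.inr rfl)
  set C := C1 + C2 + 1 with hC
  have hCr : (0 : ℝ) < C := by
    have : 0 < C := by omega
    exact_mod_cast this
  refine ⟨δ / (2 * C * C), by positivity, C * (N1 + 1), fun N hN ε hε => ?_⟩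
  set M := N / C with hM
  have hM1 : N1 + 1 ≤ M := by
    rw [hM, Nat.le_div_iff_mul_le (by omega)]
    rw [Nat.mul_comm]
    exact hN
  have hMC : C * M ≤ N := Nat.mul_div_le N C
  have hch := hN1 M (by omega)
  have hset : ((Finset.Icc 1 M).filter fun n => n % 1 = 0 % 1 ∧ lamR n ≠ lamR (n + 1)) =
      (Finset.Icc 1 M).filter fun n => F {0, 1} n = -1 := by
    refine Finset.filter_congr fun n _ => ?_
    have h1 := F_eq_lamR {0, 1} n
    rw [Finset.prod_pair (by norm_num)] at h1
    have h2 := F_cases {0, 1} n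
    simp only [Nat.mod_one, true_and, add_zero] at h1 ⊢
    constructor
    · intro h
      rcases h2 with h2 | h2
      · exfalso
        rw [h2] at h1
        rcases lamR_cases n with h3 | h3 <;> rcases lamR_cases (n + 1) with h4 | h4 <;>
          rw [h3, h4] at h1 h <;> first | exact h rfl | (norm_num at h1)
      · exact h2
    · intro h h'
      rw [h, ← h'] at h1
      rcases lamR_cases n with h3 | h3 <;> rw [h3] at h1 <;> norm_num at h1
  rw [hset] at hch
  have key : ∀ C' : ℕ, C' ≤ C → (∀ N : ℕ, 1 ≤ N →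
      ((Icc 1 N).filter fun n => F {0, 1} n = -1).card
        ≤ C' * ((Icc 1 (C' * N)).filter fun n => F B n = ε).card) →
      ((Icc 1 M).filter fun n => F {0, 1} n = -1).card ≤
        C * ((Icc 1 N).filter fun n => F B n = ε).card := by
    intro C' hC' h
    refine (h M (by omega)).trans (Nat.mul_le_mul hC' (Finset.card_le_card ?_))
    refine Finset.filter_subset_filter _ (Finset.Icc_subset_Icc le_rfl ?_)
    exact (Nat.mul_le_mul_right M hC').trans hMC
  have hmain : ((Icc 1 M).filter fun n => F {0, 1} n = -1).card ≤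
      C * ((Icc 1 N).filter fun n => F B n = ε).card := by
    rcases hε with rfl | rfl
    · exact key C1 (by omega) hC1
    · exact key C2 (by omega) hC2
  have hmain' : (((Icc 1 M).filter fun n => F {0, 1} n = -1).card : ℝ) ≤
      C * (((Icc 1 N).filter fun n => F B n = ε).card : ℝ) := by exact_mod_cast hmain
  have hMN : (N : ℝ) ≤ 2 * C * M := by
    have h1 : N < C * (M + 1) := by
      have := Nat.lt_mul_div_succ N (show 0 < C by omega)
      rw [← hM] at this
      exact this
    have h2 : (N : ℝ) ≤ C * (M + 1) := by exact_mod_cast h1.le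
    have h3 : (1 : ℝ) ≤ M := by
      have : 1 ≤ M := by omega
      exact_mod_cast this
    nlinarith
  have h4 : δ * M ≤ C * (((Icc 1 N).filter fun n => F B n = ε).card : ℝ) := hch.trans hmain'
  rw [div_mul_eq_mul_div, div_le_iff₀ (by positivity)]
  calc δ * N ≤ δ * (2 * C * M) := by gcongr
    _ = 2 * C * (δ * M) := by ring
    _ ≤ 2 * C * (C * (((Icc 1 N).filter fun n => F B n = ε).card : ℝ)) := by gcongr
    _ = _ := by ring

/-- the gap at every scale -/
theorem gap (B : Finset ℕ) (hB : B.Nonempty) : ∃ δ : ℝ, 0 < δ ∧ ∃ N0 : ℕ, ∀ N : ℕ, N0 ≤ N →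
    |∑ n ∈ Finset.Icc 1 N, ∏ b ∈ B, lamR (n + b)| ≤ (1 - δ) * N := by
  classical
  obtain ⟨δ, hδ, N0, h⟩ := both_signs B hB
  refine ⟨2 * δ, by positivity, N0, fun N hN => ?_⟩
  have h1 := h N hN 1 (Or.inl rfl)
  have h2 := h N hN (-1) (Or.inr rfl)
  set S := ∑ n ∈ Finset.Icc 1 N, ∏ b ∈ B, lamR (n + b) with hS
  open Pool.Agent.Results.MP_e6fa8b_nt.SignTransfer in
  have hcount : ∀ ε : ℤ, (ε = 1 ∨ ε = -1) → (ε : ℝ) * S ≤
      N - 2 * (((Finset.Icc 1 N).filter fun n => F B n = -ε).card : ℝ) := by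
    intro ε hε
    have e1 : (ε : ℝ) * S = ∑ n ∈ Finset.Icc 1 N, (ε : ℝ) * ((F B n : ℤ) : ℝ) := by
      rw [hS, Finset.mul_sum]
      exact Finset.sum_congr rfl fun n _ => by rw [F_eq_lamR]
    have e2 : (N : ℝ) - 2 * (((Finset.Icc 1 N).filter fun n => F B n = -ε).card : ℝ) =
        ∑ n ∈ Finset.Icc 1 N, ((1 : ℝ) - 2 * (if F B n = -ε then 1 else 0)) := by
      rw [Finset.sum_sub_distrib, ← Finset.mul_sum, Finset.sum_boole]
      simp
    rw [e1, e2]
    refine Finset.sum_le_sum fun n _ => ?_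
    rcases hε with rfl | rfl <;> rcases F_cases B n with h' | h' <;> rw [h'] <;> norm_num
  have h3 := hcount 1 (Or.inl rfl)
  have h4 := hcount (-1) (Or.inr rfl)
  rw [abs_le]
  constructor
  · simp only [neg_neg] at h4
    push_cast at h4
    linarith
  · push_cast at h3
    linarith

end NE
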